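import Mathlib
import Pool.Agent.Helper728.ConeMain

/-!
# A conical boundary point in three dimensions that is not Wiener regular

We construct a strongly elliptic second order operator with constant complex coefficients in three
variables and a bounded convex domain with a conical boundary point `O`, for which some generalized
solution of the Dirichlet problem with smooth compactly supported right hand side is unbounded
near `O`.

The operator is `γ (∂₀² + ∂₁²) - γ t₀ ∂₂²` with `γ = 1/20 - i` and `t₀` a zero near `0.44 - 0.06 i` of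
the hypergeometric function `F = ₂F₁(2/5 - 3i/2, 9/10 - 3i/2; 1; ·)`, and the domain is the
truncated circular cone `x₀² + x₁² < x₂²`, `0 < x₂ < 1`. The function
`W = x₂^μ F(t₀ (x₀² + x₁²) / x₂²)` with `μ = -4/5 + 3i` solves the homogeneous equation, vanishes on the
lateral boundary and has infinite Dirichlet integral; it is the singular solution of the dual problem.
-/

open MeasureTheory Set Metric Filter Topology
open scoped ContDiff

namespace Pool.Agent.Results.MP_322279_an.ConeVertexIrregular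

/-- Euclidean space `ℝ³`. -/
abbrev E : Type := EuclideanSpace ℝ (Fin 3)

/-- The first order derivative `∂ᵢ f` of `f : ℝ³ → ℂ`. -/
noncomputable def pd (i : Fin 3) (f : E → ℂ) (x : E) : ℂ := fderiv ℝ f x (EuclideanSpace.single i 1)

/-- The operator `P₂(D_x) = ∑ᵢⱼ aᵢⱼ ∂ᵢ ∂ⱼ` with constant coefficients. -/
noncomputable def P2 (a : Fin 3 → Fin 3 → ℂ) (φ : E → ℂ) (x : E) : ℂ := ∑ i, ∑ j, a i j * pd i (pd j φ) x

/-- Strong ellipticity: `Re ∑ᵢⱼ aᵢⱼ ξᵢ ξⱼ ≥ c |ξ|²` for all real `ξ`. -/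
def StronglyElliptic (a : Fin 3 → Fin 3 → ℂ) : Prop :=
  ∃ c : ℝ, 0 < c ∧ ∀ ξ : E, c * ‖ξ‖ ^ 2 ≤ (∑ i, ∑ j, a i j * (ξ i : ℂ) * (ξ j : ℂ)).re

/-- `φ ∈ C₀^∞(Ω)`, complex valued. -/
structure IsTest (Ω : Set E) (φ : E → ℂ) : Prop where
  smooth : ContDiff ℝ ∞ φ
  compact : HasCompactSupport φ
  subset : tsupport φ ⊆ Ω

/-- `u ∈ L²(Ω)`. -/
def MemL2 (Ω : Set E) (u : E → ℂ) : Prop := MemLp u 2 (volume.restrict Ω)

/-- The squared `L²(Ω)` distance of `u` and `v`. -/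
noncomputable def distSq (Ω : Set E) (u v : E → ℂ) : ℝ := ∫ x in Ω, ‖u x - v x‖ ^ 2

/-- The pairing `∫_Ω u v`. -/
noncomputable def pairing (Ω : Set E) (u v : E → ℂ) : ℂ := ∫ x in Ω, u x * v x

/-- `u = v` almost everywhere in `Ω`. -/
def AEEqOn (Ω : Set E) (u v : E → ℂ) : Prop := ∀ᵐ x ∂volume.restrict Ω, u x = v x

/-- `u` is essentially bounded in `Ω`. -/
def EssBoundedOn (Ω : Set E) (u : E → ℂ) : Prop := ∃ M : ℝ, ∀ᵐ x ∂volume.restrict Ω, ‖u x‖ ≤ M

/-- `u` belongs to the closure of `C₀^∞(Ω)` in `H¹(Ω)`: there is `g ∈ L²(Ω)³` such that `(u, g)` is a limit in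
`L²(Ω)⁴` of the pairs `(φ, ∇φ)` with `φ ∈ C₀^∞(Ω)`. -/
def MemH10 (Ω : Set E) (u : E → ℂ) : Prop :=
  ∃ g : Fin 3 → E → ℂ, MemL2 Ω u ∧ (∀ i, MemL2 Ω (g i)) ∧
    ∀ ε : ℝ, 0 < ε → ∃ φ, IsTest Ω φ ∧ distSq Ω u φ < ε ∧ ∀ i, distSq Ω (g i) (pd i φ) < ε

/-- `u` is a generalized solution of the Dirichlet problem `P₂ u = f` in `Ω` with zero boundary data:
`u` is in the closure of `C₀^∞(Ω)` in `H¹(Ω)` and `P₂ u = f` in the sense of distributions in `Ω`. -/
structure IsGeneralizedSolution (a : Fin 3 → Fin 3 → ℂ) (Ω : Set E) (f u : E → ℂ) : Prop where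
  mem : MemH10 Ω u
  eq : ∀ ψ, IsTest Ω ψ → pairing Ω u (P2 a ψ) = pairing Ω f ψ

/-- `O` is Wiener regular: for each `f ∈ C₀^∞(Ω)` the generalized solution tends to `0` at `O`
(for at least one of its representatives). -/
def IsWienerRegular (a : Fin 3 → Fin 3 → ℂ) (Ω : Set E) (O : E) : Prop :=
  ∀ f, IsTest Ω f → ∀ u, IsGeneralizedSolution a Ω f u →
    ∃ v, AEEqOn Ω v u ∧ Tendsto v (𝓝[Ω] O) (𝓝 0)

/-- `G` is a domain (nonempty, relatively open and connected) in the unit sphere, different from the whole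
sphere, with smooth boundary: `G` is the set where a smooth function `ρ` is positive, and the tangential
derivative of `ρ` does not vanish at the zeros of `ρ` on the sphere. -/
structure IsSmoothSphericalDomain (G : Set E) : Prop where
  ne_sphere : G ≠ sphere 0 1
  isConnected : IsConnected G
  smooth_boundary : ∃ ρ : E → ℝ, ContDiff ℝ ∞ ρ ∧ G = {x | x ∈ sphere (0 : E) 1 ∧ 0 < ρ x} ∧
    ∀ x ∈ sphere (0 : E) 1, ρ x = 0 → ∃ v : E, inner ℝ v x = 0 ∧ fderiv ℝ ρ x v ≠ 0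

/-- `O` is a conical boundary point of `Ω`. -/
def IsConicalPoint (Ω : Set E) (O : E) : Prop :=
  O ∈ frontier Ω ∧ ∃ r : ℝ, 0 < r ∧ ∃ G, IsSmoothSphericalDomain G ∧
    Ω ∩ ball O r = {x | 0 < ‖x - O‖ ∧ ‖x - O‖ < r ∧ ‖x - O‖⁻¹ • (x - O) ∈ G}

open Pool.Agent.Helper728

lemma isTest_iff {Ω : Set E} {φ : E → ℂ} : IsTest Ω φ ↔ Cone.IsTest Ω φ :=
  ⟨fun h => ⟨h.1, h.2, h.3⟩, fun h => ⟨h.1, h.2, h.3⟩⟩

/-- the coefficients -/
noncomputable def aa (i j : Fin 3) : ℂ := if i = j then (if i = 2 then -(Cone.ga * Cone.t0) else Cone.ga) else 0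

lemma P2_aa (φ : E → ℂ) (x : E) : P2 aa φ x = Cone.Pop Cone.ga (-(Cone.ga * Cone.t0)) φ x := by
  have h : ∀ (i : Fin 3) (f : E → ℂ), pd i f = Cone.pd i f := fun _ _ => rfl
  simp only [P2, aa, Fin.sum_univ_three, Cone.Pop, h]
  simp
  ring

lemma aa_elliptic : StronglyElliptic aa := by
  refine ⟨1 / 100, by norm_num, fun ξ => ?_⟩
  have h1 := Cone.ga_re
  have h2 := Cone.be_re
  have e : (∑ i, ∑ j, aa i j * (ξ i : ℂ) * (ξ j : ℂ)).re =
      Cone.ga.re * (ξ 0 ^ 2) + Cone.ga.re * (ξ 1 ^ 2) + (-(Cone.ga * Cone.t0)).re * (ξ 2 ^ 2) := by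
    have e1 : (∑ i, ∑ j, aa i j * (ξ i : ℂ) * (ξ j : ℂ)) = Cone.ga * ((ξ 0 ^ 2 : ℝ) : ℂ) +
        Cone.ga * ((ξ 1 ^ 2 : ℝ) : ℂ) + (-(Cone.ga * Cone.t0)) * ((ξ 2 ^ 2 : ℝ) : ℂ) := by
      simp only [aa, Fin.sum_univ_three]
      simp
      ring
    rw [e1, Complex.add_re, Complex.add_re, Complex.re_mul_ofReal, Complex.re_mul_ofReal, Complex.re_mul_ofReal]
  rw [e, Cone.norm_sq_eq]
  nlinarith [sq_nonneg (ξ 0), sq_nonneg (ξ 1), sq_nonneg (ξ 2)]

lemma integral_Om_eq {F : Type*} [NormedAddCommGroup F] [NormedSpace ℝ F] (g : E → F) :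
    ∫ x in Cone.Om, g x = ∫ x, g x ∂Cone.nu := rfl

/-- weak formulation in terms of the second derivatives of the test function -/
lemma dot_eq {α β : ℂ} {U : E → Cone.V4} (hU : Cone.InH U) {ψ : E → ℂ} (hψ : Cone.IsTest Cone.Om ψ) :
    ∫ x, Cone.dot (Cone.Dm α β (U x)) (Cone.J ψ x) ∂Cone.nu = -∫ x, U x 0 * Cone.Pop α β ψ x ∂Cone.nu := by
  have hP : MemLp (Cone.Pop α β ψ) 2 Cone.nu := by
    have a0 : MemLp (Cone.pd 0 (Cone.pd 0 ψ)) 2 Cone.nu := Cone.memLp_apply ((hψ.pd 0).pd 0).memLp_J 0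
    have a1 : MemLp (Cone.pd 1 (Cone.pd 1 ψ)) 2 Cone.nu := Cone.memLp_apply ((hψ.pd 1).pd 1).memLp_J 0
    have a2 : MemLp (Cone.pd 2 (Cone.pd 2 ψ)) 2 Cone.nu := Cone.memLp_apply ((hψ.pd 2).pd 2).memLp_J 0
    exact ((a0.add a1).const_mul α).add (a2.const_mul β)
  have hJ := hψ.memLp_J
  have hA := Cone.memLp_Dm α β hJ
  have hF := Cone.memLp_single hP
  have key : ∀ {V : E → Cone.V4}, MemLp V 2 Cone.nu → ∫ x, Cone.dot (Cone.Dm α β (Cone.J ψ x) +
      WithLp.toLp 2 ![Cone.Pop α β ψ x, 0, 0, 0]) (V x) ∂Cone.nu =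
      ∫ x, Cone.dot (Cone.Dm α β (Cone.J ψ x)) (V x) ∂Cone.nu + ∫ x, Cone.Pop α β ψ x * V x 0 ∂Cone.nu := by
    intro V hV
    have h2 := Cone.integrable_dot hF hV
    simp only [Cone.dot_single] at h2
    rw [← integral_add (Cone.integrable_dot hA hV) h2]
    congr 1
    ext x
    rw [← Cone.dot_single]
    simp [Cone.dot]
    ring
  have h2 := Cone.pairing_zero (hA.add hF) (by
    intro φ hφ
    simp only [Pi.add_apply]
    rw [key hφ.memLp_J]
    have i0 : ∀ i, Integrable (fun x => Cone.pd i ψ x * Cone.pd i φ x) Cone.nu := fun i =>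
      Cone.integrable_mul (Cone.memLp_apply (hψ.pd i).memLp_J 0) (Cone.memLp_apply (hφ.pd i).memLp_J 0)
    have j : ∀ i, Integrable (fun x => Cone.pd i (Cone.pd i ψ) x * φ x) Cone.nu := fun i =>
      Cone.integrable_mul (Cone.memLp_apply ((hψ.pd i).pd i).memLp_J 0) (Cone.memLp_apply hφ.memLp_J 0)
    have hibp : ∀ i, ∫ x, Cone.pd i ψ x * Cone.pd i φ x ∂Cone.nu =
        -∫ x, Cone.pd i (Cone.pd i ψ) x * φ x ∂Cone.nu := by
      intro i
      have h := Cone.ibp Cone.isOpen_Om (q := Cone.pd i ψ) i (fun x _ => (hψ.pd i).differentiable x)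
        ((hψ.pd i).pd i).continuous.continuousOn hφ
      rw [Cone.integral_nu_eq, Cone.integral_nu_eq, h]
      · intro x hx; rw [hφ.zero_of_notMem hx]; simp
      · intro x hx; rw [hφ.pd_zero_of_notMem hx]; simp
    have e1 : ∫ x, Cone.dot (Cone.Dm α β (Cone.J ψ x)) (Cone.J φ x) ∂Cone.nu =
        α * ∫ x, Cone.pd 0 ψ x * Cone.pd 0 φ x ∂Cone.nu + α * ∫ x, Cone.pd 1 ψ x * Cone.pd 1 φ x ∂Cone.nu +
        β * ∫ x, Cone.pd 2 ψ x * Cone.pd 2 φ x ∂Cone.nu := by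
      rw [← integral_const_mul, ← integral_const_mul, ← integral_const_mul,
        ← integral_add ((i0 0).const_mul _) ((i0 1).const_mul _)]
      have i01 : Integrable (fun x => α * (Cone.pd 0 ψ x * Cone.pd 0 φ x) + α * (Cone.pd 1 ψ x * Cone.pd 1 φ x))
        Cone.nu := ((i0 0).const_mul _).add ((i0 1).const_mul _)
      rw [← integral_add i01 ((i0 2).const_mul _)]
      congr 1
      ext x
      simp [Cone.dot]
      ring
    rw [e1, hibp, hibp, hibp]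
    have e2 : ∫ x, Cone.Pop α β ψ x * φ x ∂Cone.nu =
        α * ∫ x, Cone.pd 0 (Cone.pd 0 ψ) x * φ x ∂Cone.nu + α * ∫ x, Cone.pd 1 (Cone.pd 1 ψ) x * φ x ∂Cone.nu +
        β * ∫ x, Cone.pd 2 (Cone.pd 2 ψ) x * φ x ∂Cone.nu := by
      rw [← integral_const_mul, ← integral_const_mul, ← integral_const_mul,
        ← integral_add ((j 0).const_mul _) ((j 1).const_mul _)]
      have j01 : Integrable (fun x => α * (Cone.pd 0 (Cone.pd 0 ψ) x * φ x) +
          α * (Cone.pd 1 (Cone.pd 1 ψ) x * φ x)) Cone.nu :=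
        ((j 0).const_mul _).add ((j 1).const_mul _)
      rw [← integral_add j01 ((j 2).const_mul _)]
      congr 1
      ext x
      rw [Cone.Pop]
      ring
    simp only [Cone.J_zero]
    rw [e2]
    ring) hU
  simp only [Pi.add_apply] at h2
  rw [key hU.memLp] at h2
  have h3 : ∫ x, Cone.dot (Cone.Dm α β (Cone.J ψ x)) (U x) ∂Cone.nu =
      ∫ x, Cone.dot (Cone.Dm α β (U x)) (Cone.J ψ x) ∂Cone.nu := by
    congr 1
    ext x
    simp [Cone.dot]
    ring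
  have h4 : ∫ x, Cone.Pop α β ψ x * U x 0 ∂Cone.nu = ∫ x, U x 0 * Cone.Pop α β ψ x ∂Cone.nu := by
    congr 1
    ext x
    ring
  rw [h3, h4] at h2
  linear_combination h2

/-- the four vector built from a function and a gradient -/
noncomputable def jet (u : E → ℂ) (g : Fin 3 → E → ℂ) (x : E) : Cone.V4 :=
  WithLp.toLp 2 ![u x, g 0 x, g 1 x, g 2 x]

lemma memLp_jet {u : E → ℂ} {g : Fin 3 → E → ℂ} (hu : MemLp u 2 Cone.nu) (hg : ∀ i, MemLp (g i) 2 Cone.nu) :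
    MemLp (jet u g) 2 Cone.nu := by
  have h : ∀ (i : Fin 4) {f : E → ℂ}, MemLp f 2 Cone.nu →
      MemLp (fun x => (f x) • (EuclideanSpace.single i (1 : ℂ) : Cone.V4)) 2 Cone.nu := fun i f hf =>
    (ContinuousLinearMap.toSpanSingleton ℂ (EuclideanSpace.single i (1 : ℂ) : Cone.V4)).comp_memLp' hf
  have h1 := (((h 0 hu).add (h 1 (hg 0))).add (h 2 (hg 1))).add (h 3 (hg 2))
  refine h1.ae_eq (Eventually.of_forall fun x => ?_)
  ext i
  fin_cases i <;> simp [jet]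

lemma integral_jet_sub {U V : E → Cone.V4} (hU : MemLp U 2 Cone.nu) (hV : MemLp V 2 Cone.nu) :
    ∫ x, ‖U x - V x‖ ^ 2 ∂Cone.nu = ∫ x, ‖U x 0 - V x 0‖ ^ 2 ∂Cone.nu + ∫ x, ‖U x 1 - V x 1‖ ^ 2 ∂Cone.nu +
      ∫ x, ‖U x 2 - V x 2‖ ^ 2 ∂Cone.nu + ∫ x, ‖U x 3 - V x 3‖ ^ 2 ∂Cone.nu := by
  have h := hU.sub hV
  have i : ∀ i, Integrable (fun x => ‖U x i - V x i‖ ^ 2) Cone.nu := fun i =>
    Cone.integrable_sq (Cone.memLp_apply h i)
  have i01 : Integrable (fun x => ‖U x 0 - V x 0‖ ^ 2 + ‖U x 1 - V x 1‖ ^ 2) Cone.nu := (i 0).add (i 1)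
  have i012 : Integrable (fun x => ‖U x 0 - V x 0‖ ^ 2 + ‖U x 1 - V x 1‖ ^ 2 + ‖U x 2 - V x 2‖ ^ 2) Cone.nu :=
    i01.add (i 2)
  rw [← integral_add (i 0) (i 1), ← integral_add i01 (i 2), ← integral_add i012 (i 3)]
  congr 1
  ext x
  exact Cone.V4_norm_sq _

lemma inH_iff {U : E → Cone.V4} (hU : MemLp U 2 Cone.nu) : Cone.InH U ↔
    ∀ ε : ℝ, 0 < ε → ∃ φ, Cone.IsTest Cone.Om φ ∧ ∫ x, ‖U x - Cone.J φ x‖ ^ 2 ∂Cone.nu < ε := by
  constructor
  · rintro ⟨_, h⟩ ε hε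
    have h1 : hU.toLp U ∈ closure (Cone.S0 : Set Cone.X2) := h
    rw [Metric.mem_closure_iff] at h1
    obtain ⟨b, ⟨φ, hφ, hb⟩, hd⟩ := h1 (√ε) (by positivity)
    refine ⟨φ, hφ, ?_⟩
    have e : b = hφ.memLp_J.toLp (Cone.J φ) := Lp.ext (hb.trans hφ.memLp_J.coeFn_toLp.symm)
    rw [← Cone.norm_sq_toLp_sub hU hφ.memLp_J, ← e, ← dist_eq_norm]
    calc dist (hU.toLp U) b ^ 2 < √ε ^ 2 := by gcongr
      _ = ε := Real.sq_sqrt hε.le
  · intro h
    refine ⟨hU, ?_⟩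
    have h1 : hU.toLp U ∈ closure (Cone.S0 : Set Cone.X2) := by
      rw [Metric.mem_closure_iff]
      intro ε hε
      obtain ⟨φ, hφ, hlt⟩ := h (ε ^ 2) (by positivity)
      refine ⟨hφ.memLp_J.toLp _, ⟨φ, hφ, hφ.memLp_J.coeFn_toLp⟩, ?_⟩
      rw [← Cone.norm_sq_toLp_sub hU hφ.memLp_J] at hlt
      rw [dist_eq_norm]
      exact lt_of_pow_lt_pow_left₀ 2 hε.le hlt
    exact h1

lemma inH_of_memH10 {u : E → ℂ} (h : MemH10 Cone.Om u) : ∃ U, Cone.InH U ∧ ∀ x, U x 0 = u x := by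
  obtain ⟨g, hu, hg, hap⟩ := h
  refine ⟨jet u g, ?_, fun x => rfl⟩
  have hJ := memLp_jet hu hg
  rw [inH_iff hJ]
  intro ε hε
  obtain ⟨φ, hφ, h1, h2⟩ := hap (ε / 4) (by positivity)
  have hφ' := isTest_iff.1 hφ
  refine ⟨φ, hφ', ?_⟩
  rw [integral_jet_sub hJ hφ'.memLp_J]
  have e0 : ∫ x, ‖jet u g x 0 - Cone.J φ x 0‖ ^ 2 ∂Cone.nu < ε / 4 := h1
  have e1 : ∫ x, ‖jet u g x 1 - Cone.J φ x 1‖ ^ 2 ∂Cone.nu < ε / 4 := h2 0
  have e2 : ∫ x, ‖jet u g x 2 - Cone.J φ x 2‖ ^ 2 ∂Cone.nu < ε / 4 := h2 1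
  have e3 : ∫ x, ‖jet u g x 3 - Cone.J φ x 3‖ ^ 2 ∂Cone.nu < ε / 4 := h2 2
  linarith

lemma memH10_of_inH {U : E → Cone.V4} (h : Cone.InH U) : MemH10 Cone.Om (fun x => U x 0) := by
  refine ⟨fun i x => U x i.succ, Cone.memLp_apply h.memLp 0, fun i => Cone.memLp_apply h.memLp _, ?_⟩
  intro ε hε
  obtain ⟨φ, hφ, hlt⟩ := (inH_iff h.memLp).1 h ε hε
  rw [integral_jet_sub h.memLp hφ.memLp_J] at hlt
  have n : ∀ i, 0 ≤ ∫ x, ‖U x i - Cone.J φ x i‖ ^ 2 ∂Cone.nu := fun i => integral_nonneg fun x => sq_nonneg _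
  have n0 := n 0
  have n1 := n 1
  have n2 := n 2
  have n3 := n 3
  refine ⟨φ, isTest_iff.2 hφ, ?_, ?_⟩
  · have : ∫ x, ‖U x 0 - Cone.J φ x 0‖ ^ 2 ∂Cone.nu < ε := by linarith
    exact this
  · intro i
    fin_cases i
    · have : ∫ x, ‖U x 1 - Cone.J φ x 1‖ ^ 2 ∂Cone.nu < ε := by linarith
      exact this
    · have : ∫ x, ‖U x 2 - Cone.J φ x 2‖ ^ 2 ∂Cone.nu < ε := by linarith
      exact this
    · have : ∫ x, ‖U x 3 - Cone.J φ x 3‖ ^ 2 ∂Cone.nu < ε := by linarith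
      exact this

/-- the generalized solutions are the weak solutions of the helper files -/
lemma isGeneralizedSolution_iff {f u : E → ℂ} : IsGeneralizedSolution aa Cone.Om f u ↔
    ∃ U, Cone.InH U ∧ Cone.WeakSol Cone.ga (-(Cone.ga * Cone.t0)) f U ∧ ∀ x, U x 0 = u x := by
  have hP : ∀ ψ, P2 aa ψ = Cone.Pop Cone.ga (-(Cone.ga * Cone.t0)) ψ := fun ψ => funext (P2_aa ψ)
  constructor
  · rintro ⟨h1, h2⟩
    obtain ⟨U, hU, hUu⟩ := inH_of_memH10 h1
    refine ⟨U, hU, fun ψ hψ => ?_, hUu⟩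
    rw [dot_eq hU hψ]
    have h3 := h2 ψ (isTest_iff.2 hψ)
    rw [hP] at h3
    simp only [hUu]
    rw [neg_inj]
    exact h3
  · rintro ⟨U, hU, hw, hUu⟩
    refine ⟨?_, fun ψ hψ => ?_⟩
    · have := memH10_of_inH hU
      simpa only [hUu] using this
    · have hψ' := isTest_iff.1 hψ
      have h3 := hw ψ hψ'
      rw [dot_eq hU hψ', neg_inj] at h3
      rw [hP]
      simp only [hUu] at h3
      exact h3

lemma convex_Om : Convex ℝ Cone.Om := by
  intro x hx y hy a b ha hb hab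
  obtain ⟨x1, x2, x3⟩ := hx
  obtain ⟨y1, y2, y3⟩ := hy
  have e : ∀ i, (a • x + b • y) i = a * x i + b * y i := by intro i; simp
  have hc : x 0 * y 0 + x 1 * y 1 ≤ x 2 * y 2 := by
    apply le_of_sq_le_sq _ (by positivity)
    have h1 : (x 0 * y 0 + x 1 * y 1) ^ 2 ≤ (x 0 ^ 2 + x 1 ^ 2) * (y 0 ^ 2 + y 1 ^ 2) := by
      nlinarith [sq_nonneg (x 0 * y 1 - x 1 * y 0)]
    have h2 : (x 0 ^ 2 + x 1 ^ 2) * (y 0 ^ 2 + y 1 ^ 2) ≤ x 2 ^ 2 * y 2 ^ 2 := by
      gcongr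
    nlinarith
  refine ⟨?_, ?_, ?_⟩
  · rw [e, e, e]
    have h1 : 0 ≤ a * b := by positivity
    have h2 : a * b * (x 0 * y 0 + x 1 * y 1) ≤ a * b * (x 2 * y 2) := by gcongr
    by_cases ha0 : a = 0
    · have hb1 : b = 1 := by linarith
      subst ha0; subst hb1
      nlinarith
    · have hap : 0 < a ^ 2 := by positivity
      have h3 : a ^ 2 * (x 0 ^ 2 + x 1 ^ 2) < a ^ 2 * x 2 ^ 2 := by gcongr
      have h4 : b ^ 2 * (y 0 ^ 2 + y 1 ^ 2) ≤ b ^ 2 * y 2 ^ 2 := by gcongr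
      nlinarith
  · rw [e]
    by_cases ha0 : a = 0
    · have hb1 : b = 1 := by linarith
      subst ha0; subst hb1
      linarith
    · have hap : 0 < a := lt_of_le_of_ne ha (Ne.symm ha0)
      have := mul_pos hap x2
      have := mul_nonneg hb y2.le
      linarith
  · rw [e]
    by_cases ha0 : a = 0
    · have hb1 : b = 1 := by linarith
      subst ha0; subst hb1
      linarith
    · have hap : 0 < a := lt_of_le_of_ne ha (Ne.symm ha0)
      have := mul_lt_mul_of_pos_left x3 hap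
      have := mul_le_mul_of_nonneg_left y3.le hb
      linarith

lemma axis_mem {t : ℝ} (h : 0 < t) (h' : t < 1) : (EuclideanSpace.single 2 t : E) ∈ Cone.Om := by
  refine ⟨?_, ?_, ?_⟩
  · simp; positivity
  · simpa using h
  · simpa using h'

lemma isConnected_Om : IsConnected Cone.Om :=
  ⟨⟨_, axis_mem (by norm_num : (0 : ℝ) < 1 / 2) (by norm_num)⟩, convex_Om.isPreconnected⟩

lemma zero_mem_frontier : (0 : E) ∈ frontier Cone.Om := by
  rw [Cone.isOpen_Om.frontier_eq]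
  refine ⟨?_, ?_⟩
  · rw [Metric.mem_closure_iff]
    intro ε hε
    refine ⟨_, axis_mem (t := min (ε / 2) (1 / 2)) (by positivity) ?_, ?_⟩
    · exact lt_of_le_of_lt (min_le_right _ _) (by norm_num)
    · rw [dist_zero_left, PiLp.norm_single, Real.norm_of_nonneg (by positivity)]
      exact lt_of_le_of_lt (min_le_left _ _) (by linarith)
  · intro h
    have := h.2.1
    simp at this

/-- the spherical cap cut out by the cone -/
def cap : Set E := {x | x ∈ sphere (0 : E) 1 ∧ 0 < x 2 - √2 / 2}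

lemma sqrt_half : (√2 / 2) ^ 2 = 1 / 2 := by
  rw [div_pow, Real.sq_sqrt (by norm_num)]; norm_num

lemma mem_cap_iff {x : E} : x ∈ cap ↔ ‖x‖ = 1 ∧ x 0 ^ 2 + x 1 ^ 2 < x 2 ^ 2 ∧ 0 < x 2 := by
  have hs := sqrt_half
  have hs0 : 0 < √2 / 2 := by positivity
  constructor
  · rintro ⟨h1, h2⟩
    rw [mem_sphere_zero_iff_norm] at h1
    have h3 := Cone.norm_sq_eq x
    rw [h1] at h3
    refine ⟨h1, ?_, by linarith⟩
    nlinarith
  · rintro ⟨h1, h2, h3⟩
    refine ⟨mem_sphere_zero_iff_norm.2 h1, ?_⟩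
    have h4 := Cone.norm_sq_eq x
    rw [h1] at h4
    by_contra h
    nlinarith

lemma normalize_mem_cap_iff {x : E} (hx : 0 < ‖x‖) : ‖x‖⁻¹ • x ∈ cap ↔ x 0 ^ 2 + x 1 ^ 2 < x 2 ^ 2 ∧ 0 < x 2 := by
  rw [mem_cap_iff]
  have h1 : ‖‖x‖⁻¹ • x‖ = 1 := by
    rw [norm_smul, norm_inv, norm_norm, inv_mul_cancel₀ hx.ne']
  have h2 : 0 < ‖x‖⁻¹ := inv_pos.2 hx
  have e : ∀ i, (‖x‖⁻¹ • x) i = ‖x‖⁻¹ * x i := by intro i; simp
  rw [e, e, e]
  simp only [h1, true_and]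
  have h3 : (‖x‖⁻¹ * x 0) ^ 2 + (‖x‖⁻¹ * x 1) ^ 2 < (‖x‖⁻¹ * x 2) ^ 2 ↔ x 0 ^ 2 + x 1 ^ 2 < x 2 ^ 2 := by
    have h4 : 0 < ‖x‖⁻¹ ^ 2 := by positivity
    rw [mul_pow, mul_pow, mul_pow, ← mul_add, mul_lt_mul_iff_right₀ h4]
  rw [h3, mul_pos_iff_of_pos_left h2]

lemma isConnected_cap : IsConnected cap := by
  have h1 : cap = (fun x : E => ‖x‖⁻¹ • x) '' Cone.Om := by
    ext x
    constructor
    · intro hx
      have hx' := mem_cap_iff.1 hx
      refine ⟨(1 / 2 : ℝ) • x, ?_, ?_⟩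
      · have h2 : x 2 ≤ 1 := by
          have := Cone.norm_sq_eq x
          rw [hx'.1] at this
          nlinarith [sq_nonneg (x 0), sq_nonneg (x 1)]
        refine ⟨?_, ?_, ?_⟩
        · simp only [PiLp.smul_apply, smul_eq_mul]; nlinarith [hx'.2.1]
        · simp only [PiLp.smul_apply, smul_eq_mul]; linarith [hx'.2.2]
        · simp only [PiLp.smul_apply, smul_eq_mul]; linarith
      · simp only
        rw [norm_smul, hx'.1, smul_smul]
        norm_num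
    · rintro ⟨y, hy, rfl⟩
      have hpos : 0 < ‖y‖ := by
        rw [norm_pos_iff]
        intro h
        have := hy.2.1
        rw [h] at this
        simp at this
      simp only
      rw [normalize_mem_cap_iff hpos]
      exact ⟨hy.1, hy.2.1⟩
  rw [h1]
  apply isConnected_Om.image
  intro x hx
  apply ContinuousAt.continuousWithinAt
  have hne : ‖x‖ ≠ 0 := by
    rw [norm_ne_zero_iff]
    intro h
    have := hx.2.1
    rw [h] at this
    simp at this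
  exact (continuous_norm.continuousAt.inv₀ hne).smul continuousAt_id

lemma isSmooth_cap : IsSmoothSphericalDomain cap where
  ne_sphere := by
    intro h
    have h1 : (EuclideanSpace.single 2 (-1) : E) ∈ sphere (0 : E) 1 := by simp
    rw [← h, mem_cap_iff] at h1
    have := h1.2.2
    simp at this
    linarith
  isConnected := isConnected_cap
  smooth_boundary := by
    refine ⟨fun x => x 2 - √2 / 2, by fun_prop, rfl, ?_⟩
    intro x hx hx0
    rw [mem_sphere_zero_iff_norm] at hx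
    have hs := sqrt_half
    have h2 : x 2 ^ 2 = 1 / 2 := by
      have : x 2 = √2 / 2 := by linarith
      rw [this, hs]
    have hf : ∀ v : E, fderiv ℝ (fun x : E => x 2 - √2 / 2) x v = v 2 := by
      intro v
      have : HasFDerivAt (fun x : E => x 2 - √2 / 2) (EuclideanSpace.proj 2 : E →L[ℝ] ℝ) x :=
        (EuclideanSpace.proj 2 : E →L[ℝ] ℝ).hasFDerivAt.sub_const _
      rw [this.fderiv]
      rfl
    refine ⟨(EuclideanSpace.single 2 1 : E) - x 2 • x, ?_, ?_⟩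
    · rw [inner_sub_left, inner_smul_left, real_inner_self_eq_norm_sq, hx, EuclideanSpace.inner_single_left]
      simp
    · rw [hf]
      simp only [PiLp.sub_apply, PiLp.single_apply, PiLp.smul_apply, smul_eq_mul]
      simp only [if_true]
      nlinarith

lemma isConical : IsConicalPoint Cone.Om 0 := by
  refine ⟨zero_mem_frontier, 1, one_pos, cap, isSmooth_cap, ?_⟩
  ext x
  simp only [sub_zero, mem_inter_iff, mem_ball_zero_iff, mem_ofPred_eq]
  constructor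
  · rintro ⟨h1, h2⟩
    have hpos : 0 < ‖x‖ := by
      rw [norm_pos_iff]
      intro h
      have := h1.2.1
      rw [h] at this
      simp at this
    exact ⟨hpos, h2, (normalize_mem_cap_iff hpos).2 ⟨h1.1, h1.2.1⟩⟩
  · rintro ⟨h1, h2, h3⟩
    have h4 := (normalize_mem_cap_iff h1).1 h3
    refine ⟨⟨h4.1, h4.2, ?_⟩, h2⟩
    have := Cone.norm_sq_eq x
    nlinarith [sq_nonneg (x 0), sq_nonneg (x 1), h4.2]

lemma memLp_of_isTest {f : E → ℂ} (hf : IsTest Cone.Om f) : MemLp f 2 Cone.nu :=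
  Cone.memLp_apply (isTest_iff.1 hf).memLp_J 0

lemma unique_solution {f u v : E → ℂ} (hu : IsGeneralizedSolution aa Cone.Om f u)
    (hv : IsGeneralizedSolution aa Cone.Om f v) : v =ᵐ[Cone.nu] u := by
  obtain ⟨U, hU, hUw, hUu⟩ := isGeneralizedSolution_iff.1 hu
  obtain ⟨V, hV, hVw, hVv⟩ := isGeneralizedSolution_iff.1 hv
  have hUm := hU.memLp
  have hVm := hV.memLp
  have hD : Cone.InH (fun x => V x - U x) := by
    obtain ⟨m1, m2⟩ := hU
    obtain ⟨m3, m4⟩ := hV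
    refine ⟨m3.sub m1, ?_⟩
    have : (m3.sub m1).toLp _ = m3.toLp V - m1.toLp U := MemLp.toLp_sub m3 m1
    have e : (m3.sub m1).toLp (fun x => V x - U x) ∈ Cone.H0 := by
      have h := Cone.H0.sub_mem m4 m2
      rwa [← this] at h
    exact e
  have hw : Cone.WeakSol Cone.ga (-(Cone.ga * Cone.t0)) (fun _ => 0) (fun x => V x - U x) := by
    intro ψ hψ
    have h1 := hUw ψ hψ
    have h2 := hVw ψ hψ
    have i1 := Cone.integrable_dot (Cone.memLp_Dm Cone.ga (-(Cone.ga * Cone.t0)) hUm) hψ.memLp_J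
    have i2 := Cone.integrable_dot (Cone.memLp_Dm Cone.ga (-(Cone.ga * Cone.t0)) hVm) hψ.memLp_J
    have h3 : ∫ x, Cone.dot (Cone.Dm Cone.ga (-(Cone.ga * Cone.t0)) (V x - U x)) (Cone.J ψ x) ∂Cone.nu =
        ∫ x, Cone.dot (Cone.Dm Cone.ga (-(Cone.ga * Cone.t0)) (V x)) (Cone.J ψ x) ∂Cone.nu -
        ∫ x, Cone.dot (Cone.Dm Cone.ga (-(Cone.ga * Cone.t0)) (U x)) (Cone.J ψ x) ∂Cone.nu := by
      rw [← integral_sub i2 i1]
      congr 1
      ext x
      simp [Cone.dot]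
      ring
    rw [h3, h1, h2]
    simp
  have h0 : MemLp (fun _ : E => (0 : ℂ)) 2 Cone.nu := MemLp.zero'
  have h4 := hw.energy (by norm_num : (0 : ℝ) < 1 / 100) Cone.ga_re Cone.be_re h0 (one_pos) (fun _ _ => rfl) hD
  simp only [norm_zero, ne_eq, OfNat.ofNat_ne_zero, not_false_eq_true, zero_pow, integral_zero, mul_zero] at h4
  have h5 : ∫ x, ‖(V x - U x) 0‖ ^ 2 ∂Cone.nu = 0 := le_antisymm h4 (integral_nonneg fun x => sq_nonneg _)
  have h6 := (integral_eq_zero_iff_of_nonneg (fun x => sq_nonneg _)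
    (Cone.integrable_sq (Cone.memLp_apply hD.memLp 0))).1 h5
  filter_upwards [h6] with x hx
  have h7 : ‖(V x - U x) 0‖ = 0 := by
    simpa using hx
  rw [norm_eq_zero] at h7
  have h8 : V x 0 - U x 0 = 0 := h7
  rw [hVv, hUu] at h8
  exact sub_eq_zero.1 h8

lemma exists_solution {f : E → ℂ} (hf : IsTest Cone.Om f) : ∃ u, IsGeneralizedSolution aa Cone.Om f u := by
  obtain ⟨U, hU, hw⟩ := Cone.exists_weakSol (by norm_num : (0 : ℝ) < 1 / 100) Cone.ga_re Cone.be_re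
    (memLp_of_isTest hf)
  exact ⟨fun x => U x 0, isGeneralizedSolution_iff.2 ⟨U, hU, hw, fun x => rfl⟩⟩

lemma exists_unbounded : ∃ f, IsTest Cone.Om f ∧ ∀ u, IsGeneralizedSolution aa Cone.Om f u →
    ∀ r : ℝ, 0 < r → ¬ EssBoundedOn (Cone.Om ∩ ball 0 r) u := by
  obtain ⟨f, hf, h⟩ := Cone.exists_bad
  refine ⟨f, isTest_iff.2 hf, fun u hu r hr => ?_⟩
  rintro ⟨M, hM⟩
  obtain ⟨U, hU, hw, hUu⟩ := isGeneralizedSolution_iff.1 hu
  apply h U hU hw r hr M
  rw [ae_restrict_iff' (Cone.isOpen_Om.measurableSet.inter measurableSet_ball)] at hM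
  rw [Cone.nu, ae_restrict_iff' Cone.isOpen_Om.measurableSet]
  filter_upwards [hM] with x hx hxO hxr
  rw [hUu]
  exact hx ⟨hxO, by rwa [mem_ball_zero_iff]⟩

/-- There are a strongly elliptic operator `P₂` with constant complex coefficients in `ℝ³`, a bounded domain `Ω`
and a conical boundary point `O` such that the Dirichlet problem is uniquely solvable for all `f ∈ C₀^∞(Ω)` but
`O` is not Wiener regular; for some `f` the generalized solution is even unbounded in each neighbourhood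
of `O`. -/
theorem result : ∃ (a : Fin 3 → Fin 3 → ℂ) (Ω : Set E) (O : E),
    (∀ i j, a i j = a j i) ∧ StronglyElliptic a ∧
    IsOpen Ω ∧ IsConnected Ω ∧ Bornology.IsBounded Ω ∧ IsConicalPoint Ω O ∧
    (∀ f, IsTest Ω f → ∃ u, IsGeneralizedSolution a Ω f u ∧
      ∀ v, IsGeneralizedSolution a Ω f v → AEEqOn Ω v u) ∧
    ¬ IsWienerRegular a Ω O ∧
    ∃ f, IsTest Ω f ∧ ∀ u, IsGeneralizedSolution a Ω f u →
      ∀ r : ℝ, 0 < r → ¬ EssBoundedOn (Ω ∩ ball O r) u := by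
  refine ⟨aa, Cone.Om, 0, ?_, aa_elliptic, Cone.isOpen_Om, isConnected_Om, isBounded_ball.subset Cone.Om_subset_ball,
    isConical, ?_, ?_, exists_unbounded⟩
  · intro i j
    simp only [aa]
    by_cases h : i = j
    · subst h; rfl
    · rw [if_neg h, if_neg (Ne.symm h)]
  · intro f hf
    obtain ⟨u, hu⟩ := exists_solution hf
    exact ⟨u, hu, fun v hv => unique_solution hu hv⟩
  · intro hreg
    obtain ⟨f, hf, h⟩ := exists_unbounded
    obtain ⟨u, hu⟩ := exists_solution hf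
    obtain ⟨v, hvu, hv⟩ := hreg f hf u hu
    rw [Metric.tendsto_nhdsWithin_nhds] at hv
    obtain ⟨r, hr, hv⟩ := hv 1 one_pos
    refine h u hu r hr ⟨1, ?_⟩
    have hvu' : ∀ᵐ x ∂volume.restrict (Cone.Om ∩ ball 0 r), v x = u x :=
      ae_mono (Measure.restrict_mono inter_subset_left le_rfl) hvu
    rw [ae_restrict_iff' (Cone.isOpen_Om.measurableSet.inter measurableSet_ball)] at hvu' ⊢
    filter_upwards [hvu'] with x hx hxO
    rw [← hx hxO]
    have := hv hxO.1 hxO.2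
    rw [dist_zero_right] at this
    exact this.le

end Pool.Agent.Results.MP_322279_an.ConeVertexIrregular
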